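import Pool.Agent.Helper14_DK.Stmts

/-! DK, module IDENT (helper59): the Kohn-Hoermander inequality. -/

set_option autoImplicit false

namespace Pool.Agent.DK.H59

open Pool.Agent.DK
open MeasureTheory Complex Set Metric
open scoped ContDiff Topology

variable {n : ℕ} {D : Set (E n)} {Φ : E n → ℝ} {u v : E n → ℂ}

theorem two_le_inf : (2 : WithTop ℕ∞) ≤ ((⊤ : ℕ∞) : WithTop ℕ∞) := by
  have : ((2 : ℕ∞) : WithTop ℕ∞) ≤ ((⊤ : ℕ∞) : WithTop ℕ∞) := WithTop.coe_le_coe.mpr le_top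
  exact this

/-- the weight -/
noncomputable def W (Φ : E n → ℝ) (z : E n) : ℂ := ((Real.exp (-Φ z) : ℝ) : ℂ)

theorem conj_W (z : E n) : (starRingEnd ℂ) (W Φ z) = W Φ z := Complex.conj_ofReal _

theorem smW (hΦ : ContDiffOn ℝ ∞ Φ D) : ContDiffOn ℝ ∞ (W Φ) D :=
  contDiffOn_cx (F := fun z => Real.exp (-Φ z)) (Real.contDiff_exp.comp_contDiffOn hΦ.neg)

theorem dz_W {z : E n} (h : DifferentiableAt ℝ Φ z) (j : Fin n) :
    dz j (W Φ) z = - (W Φ z * dz j (cx Φ) z) := by
  have h1 : HasFDerivAt (fun y => Real.exp (-Φ y)) (Real.exp (-Φ z) • (-(fderiv ℝ Φ z))) z :=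
    h.hasFDerivAt.neg.exp
  have h2 : ∀ w, fderiv ℝ (W Φ) z w = - (W Φ z * ((fderiv ℝ Φ z w : ℝ) : ℂ)) := by
    intro w
    have h3 := fderiv_cx (F := fun y => Real.exp (-Φ y)) h1.differentiableAt w
    have h4 : fderiv ℝ (W Φ) z w = fderiv ℝ (cx (fun y => Real.exp (-Φ y))) z w := rfl
    rw [h4, h3, h1.fderiv]
    show ((Real.exp (-Φ z) * -(fderiv ℝ Φ z w) : ℝ) : ℂ) = _
    unfold W
    push_cast
    ring
  unfold dz
  rw [h2, h2, fderiv_cx h, fderiv_cx h]
  ring

/-- the operators `δ_j` -/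
noncomputable def del (Φ : E n → ℝ) (j : Fin n) (u : E n → ℂ) (z : E n) : ℂ :=
  dz j u z - dz j (cx Φ) z * u z

theorem sm_dzP (hD : IsOpen D) (hΦ : ContDiffOn ℝ ∞ Φ D) (j : Fin n) :
    ContDiffOn ℝ ∞ (dz j (cx Φ)) D := fun z hz =>
  (contDiffAt_dz (m := ⊤) (by
    simpa using (contDiffOn_cx hΦ).contDiffAt (hD.mem_nhds hz))).contDiffWithinAt

theorem sm_dbdzP (hD : IsOpen D) (hΦ : ContDiffOn ℝ ∞ Φ D) (j k : Fin n) :
    ContDiffOn ℝ ∞ (dbar k (dz j (cx Φ))) D := fun z hz =>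
  (contDiffAt_dbar (m := ⊤) (by
    simpa using (sm_dzP hD hΦ j).contDiffAt (hD.mem_nhds hz))).contDiffWithinAt

theorem test_del (hD : IsOpen D) (hΦ : ContDiffOn ℝ ∞ Φ D) (hu : IsTest D u) (j : Fin n) :
    IsTest D (del Φ j u) := (hu.dz j).sub' (hu.mul hD (sm_dzP hD hΦ j))

/-- the weighted inner product -/
noncomputable def IP (Φ : E n → ℝ) (u v : E n → ℂ) : ℂ :=
  ∫ z, W Φ z * (u z * (starRingEnd ℂ) (v z))

theorem test_IP (hD : IsOpen D) (hΦ : ContDiffOn ℝ ∞ Φ D) (hu : IsTest D u) (hv : IsTest D v) :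
    IsTest D (fun z => W Φ z * (u z * (starRingEnd ℂ) (v z))) :=
  (hv.conj.mul hD hu.sm.contDiffOn).mul hD (smW hΦ)

theorem IP_conj (u v : E n → ℂ) : (starRingEnd ℂ) (IP Φ u v) = IP Φ v u := by
  unfold IP
  rw [← integral_conj]
  congr 1
  funext z
  rw [map_mul, map_mul, conj_W, Complex.conj_conj]
  ring

theorem ibp1 (hD : IsOpen D) (hΦ : ContDiffOn ℝ ∞ Φ D) (hu : IsTest D u) (hv : IsTest D v)
    (j : Fin n) : IP Φ (del Φ j u) v = - IP Φ u (dbar j v) := by
  have hf : ContDiffOn ℝ 1 (fun z => u z * W Φ z) D :=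
    (hu.sm.contDiffOn.mul (smW hΦ)).of_le (by exact_mod_cast le_top)
  have h1 := integral_mul_dz hD hf hv.conj j
  have e1 : IP Φ (del Φ j u) v =
      ∫ z, dz j (fun z => u z * W Φ z) z * (starRingEnd ℂ) (v z) := by
    unfold IP
    congr 1
    funext z
    by_cases hz : z ∈ D
    · have hd : DifferentiableAt ℝ Φ z :=
        (hΦ.contDiffAt (hD.mem_nhds hz)).differentiableAt (by simp)
      have hW : DifferentiableAt ℝ (W Φ) z :=
        ((smW hΦ).contDiffAt (hD.mem_nhds hz)).differentiableAt (by simp)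
      rw [dz_mul (hu.differentiable z) hW, dz_W hd]
      unfold del
      ring
    · rw [hv.zero_of_notMem hz]
      simp
  have e2 : IP Φ u (dbar j v) =
      ∫ z, (fun z => u z * W Φ z) z * dz j (fun z => (starRingEnd ℂ) (v z)) z := by
    unfold IP
    congr 1
    funext z
    rw [dz_conj]
    ring
  rw [e1, e2, h1, neg_neg]

theorem ibp2 (hD : IsOpen D) (hΦ : ContDiffOn ℝ ∞ Φ D) (hu : IsTest D u) (hv : IsTest D v)
    (k : Fin n) : IP Φ (dbar k u) v = - IP Φ u (del Φ k v) := by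
  have h := congrArg (starRingEnd ℂ) (ibp1 hD hΦ hv hu k)
  rw [map_neg, IP_conj, IP_conj] at h
  rw [h, neg_neg]

theorem comm (hD : IsOpen D) (hΦ : ContDiffOn ℝ ∞ Φ D) (hu : IsTest D u) (j k : Fin n) {z : E n}
    (hz : z ∈ D) : dbar k (del Φ j u) z =
      del Φ j (dbar k u) z - dbar k (dz j (cx Φ)) z * u z := by
  have h1 : DifferentiableAt ℝ (dz j u) z := (hu.dz j).differentiable z
  have h2 : DifferentiableAt ℝ (dz j (cx Φ)) z :=
    ((sm_dzP hD hΦ j).contDiffAt (hD.mem_nhds hz)).differentiableAt (by simp)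
  have h3 : DifferentiableAt ℝ (fun y => dz j (cx Φ) y * u y) z :=
    h2.mul (hu.differentiable z)
  have h4 : dbar k (del Φ j u) z =
      dbar k (fun y => dz j u y - dz j (cx Φ) y * u y) z := rfl
  have h5 : ContDiffAt ℝ 2 u z := hu.sm.contDiffAt.of_le two_le_inf
  rw [h4, dbar_sub h1 h3, dbar_mul h2 (hu.differentiable z), dbar_dz_comm h5]
  unfold del
  ring

theorem key (hD : IsOpen D) (hΦ : ContDiffOn ℝ ∞ Φ D) (hu : IsTest D u) (hv : IsTest D v)
    (j k : Fin n) : IP Φ (del Φ j u) (del Φ k v) = IP Φ (dbar k u) (dbar j v) +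
      IP Φ (fun z => dbar k (dz j (cx Φ)) z * u z) v := by
  have t1 : IsTest D (fun z => dbar k (dz j (cx Φ)) z * u z) := hu.mul hD (sm_dbdzP hD hΦ j k)
  have h1 := ibp2 hD hΦ (test_del hD hΦ hu j) hv k
  have h2 : IP Φ (dbar k (del Φ j u)) v = IP Φ (del Φ j (dbar k u)) v -
      IP Φ (fun z => dbar k (dz j (cx Φ)) z * u z) v := by
    unfold IP
    rw [← integral_sub (test_IP hD hΦ (test_del hD hΦ (hu.dbar k) j) hv).integrable
      (test_IP hD hΦ t1 hv).integrable]
    congr 1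
    funext z
    by_cases hz : z ∈ D
    · rw [comm hD hΦ hu j k hz]
      ring
    · rw [hv.zero_of_notMem hz]
      simp
  have h3 := ibp1 hD hΦ (hu.dbar k) hv j
  rw [h2, h3] at h1
  linear_combination h1

theorem ident (hlb : LbStmt) : IdentStmt := by
  intro n D Φ a hD hΦ ha
  have hdel : ∀ j, IsTest D (del Φ j (a j)) := fun j => test_del hD hΦ (ha j) j
  -- the first integral
  have e1 : ((∫ z, ‖∑ j, (dz j (a j) z - dz j (cx Φ) z * a j z)‖ ^ 2 * Real.exp (-Φ z) : ℝ) : ℂ)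
      = ∑ j, ∑ k, IP Φ (del Φ j (a j)) (del Φ k (a k)) := by
    rw [← integral_complex_ofReal]
    have h1 : ∀ z, ((‖∑ j, (dz j (a j) z - dz j (cx Φ) z * a j z)‖ ^ 2 *
        Real.exp (-Φ z) : ℝ) : ℂ) = ∑ j, ∑ k, W Φ z * (del Φ j (a j) z *
          (starRingEnd ℂ) (del Φ k (a k) z)) := by
      intro z
      have h2 : ((‖∑ j, del Φ j (a j) z‖ ^ 2 : ℝ) : ℂ) =
          (∑ j, del Φ j (a j) z) * (starRingEnd ℂ) (∑ j, del Φ j (a j) z) := by
        rw [Complex.mul_conj, Complex.normSq_eq_norm_sq]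
      calc ((‖∑ j, (dz j (a j) z - dz j (cx Φ) z * a j z)‖ ^ 2 * Real.exp (-Φ z) : ℝ) : ℂ)
          = ((‖∑ j, del Φ j (a j) z‖ ^ 2 : ℝ) : ℂ) * W Φ z := by
            rw [Complex.ofReal_mul]; rfl
        _ = _ := by
            rw [h2, map_sum, Finset.sum_mul_sum, Finset.sum_mul]
            refine Finset.sum_congr rfl fun j _ => ?_
            rw [Finset.sum_mul]
            refine Finset.sum_congr rfl fun k _ => ?_
            ring
    simp only [h1]
    rw [integral_finsetSum]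
    · refine Finset.sum_congr rfl fun j _ => ?_
      rw [integral_finsetSum]
      · rfl
      · exact fun k _ => (test_IP hD hΦ (hdel j) (hdel k)).integrable
    · exact fun j _ => integrable_finsetSum _ fun k _ =>
        (test_IP hD hΦ (hdel j) (hdel k)).integrable
  -- the Levi form
  have hjk : ∀ j k, IsTest D (fun z => dbar k (dz j (cx Φ)) z * a j z) := fun j k =>
    (ha j).mul hD (sm_dbdzP hD hΦ j k)
  have e2 : ((∫ z, Lv Φ z (fun j => a j z) * Real.exp (-Φ z) : ℝ) : ℂ) =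
      ∑ j, ∑ k, IP Φ (fun z => dbar k (dz j (cx Φ)) z * a j z) (a k) := by
    rw [← integral_complex_ofReal]
    have h1 : ∀ z, ((Lv Φ z (fun j => a j z) * Real.exp (-Φ z) : ℝ) : ℂ) =
        ∑ j, ∑ k, W Φ z * ((dbar k (dz j (cx Φ)) z * a j z) * (starRingEnd ℂ) (a k z)) := by
      intro z
      rw [Complex.ofReal_mul]
      by_cases hz : z ∈ D
      · have h2 : ContDiffAt ℝ 2 Φ z :=
          (hΦ.contDiffAt (hD.mem_nhds hz)).of_le two_le_inf
        rw [hlb n Φ z h2, Finset.sum_mul]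
        refine Finset.sum_congr rfl fun j _ => ?_
        rw [Finset.sum_mul]
        refine Finset.sum_congr rfl fun k _ => ?_
        unfold W
        ring
      · have h3 : (fun j => a j z) = 0 := by
          funext j
          exact (ha j).zero_of_notMem hz
        have h4 : Lv Φ z (fun j => a j z) = 0 := by
          rw [h3]
          unfold Lv
          have h5 : iteratedFDeriv ℝ 2 Φ z ![(0 : E n), 0] = 0 :=
            ContinuousMultilinearMap.map_coord_zero _ 0 rfl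
          rw [smul_zero, h5]
          simp
        rw [h4, Complex.ofReal_zero, zero_mul]
        symm
        refine Finset.sum_eq_zero fun j _ => Finset.sum_eq_zero fun k _ => ?_
        rw [(ha k).zero_of_notMem hz]
        simp
    simp only [h1]
    rw [integral_finsetSum]
    · refine Finset.sum_congr rfl fun j _ => ?_
      rw [integral_finsetSum]
      · rfl
      · exact fun k _ => (test_IP hD hΦ (hjk j k) (ha k)).integrable
    · exact fun j _ => integrable_finsetSum _ fun k _ =>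
        (test_IP hD hΦ (hjk j k) (ha k)).integrable
  -- the mixed terms
  have e3 : (∑ j, ∑ k, IP Φ (del Φ j (a j)) (del Φ k (a k))) =
      (∑ j, ∑ k, IP Φ (dbar k (a j)) (dbar j (a k))) +
        ∑ j, ∑ k, IP Φ (fun z => dbar k (dz j (cx Φ)) z * a j z) (a k) := by
    rw [← Finset.sum_add_distrib]
    refine Finset.sum_congr rfl fun j _ => ?_
    rw [← Finset.sum_add_distrib]
    refine Finset.sum_congr rfl fun k _ => ?_
    exact key hD hΦ (ha j) (ha k) j k
  have hT : ∀ j k l m, Integrable (fun z => W Φ z * (dbar k (a j) z *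
      (starRingEnd ℂ) (dbar m (a l) z))) := fun j k l m =>
    (test_IP hD hΦ ((ha j).dbar k) ((ha l).dbar m)).integrable
  have e4 : (∑ j, ∑ k, IP Φ (dbar k (a j)) (dbar j (a k))) =
      ∫ z, ∑ j, ∑ k, W Φ z * (dbar k (a j) z * (starRingEnd ℂ) (dbar j (a k) z)) := by
    rw [integral_finsetSum]
    · refine Finset.sum_congr rfl fun j _ => ?_
      rw [integral_finsetSum]
      · rfl
      · exact fun k _ => hT j k k j
    · exact fun j _ => integrable_finsetSum _ fun k _ => hT j k k j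
  have hI : Integrable (fun z => ∑ j, ∑ k, W Φ z * (dbar k (a j) z *
      (starRingEnd ℂ) (dbar j (a k) z))) :=
    integrable_finsetSum _ fun j _ => integrable_finsetSum _ fun k _ => hT j k k j
  -- the pointwise identity
  have hpt : ∀ z, -((1 / 2) * ((∑ j, ∑ k, ‖dbar k (a j) z - dbar j (a k) z‖ ^ 2) *
      Real.exp (-Φ z))) ≤ (∑ j, ∑ k, W Φ z * (dbar k (a j) z *
      (starRingEnd ℂ) (dbar j (a k) z))).re := by
    intro z
    have h1 : (∑ j, ∑ k, W Φ z * (dbar k (a j) z * (starRingEnd ℂ) (dbar j (a k) z))).re =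
        (∑ j, ∑ k, (dbar k (a j) z * (starRingEnd ℂ) (dbar j (a k) z)).re) *
          Real.exp (-Φ z) := by
      rw [Complex.re_sum, Finset.sum_mul]
      refine Finset.sum_congr rfl fun j _ => ?_
      rw [Complex.re_sum, Finset.sum_mul]
      refine Finset.sum_congr rfl fun k _ => ?_
      unfold W
      rw [Complex.re_ofReal_mul]
      ring
    rw [h1]
    have h2 : ∀ x y : ℂ, ‖x - y‖ ^ 2 = ‖x‖ ^ 2 + ‖y‖ ^ 2 - 2 * (x * (starRingEnd ℂ) y).re := by
      intro x y
      rw [← Complex.normSq_eq_norm_sq, ← Complex.normSq_eq_norm_sq, ← Complex.normSq_eq_norm_sq,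
        Complex.normSq_sub]
    have h3 : (∑ j, ∑ k, ‖dbar k (a j) z - dbar j (a k) z‖ ^ 2) =
        2 * (∑ j, ∑ k, ‖dbar k (a j) z‖ ^ 2) -
          2 * ∑ j, ∑ k, (dbar k (a j) z * (starRingEnd ℂ) (dbar j (a k) z)).re := by
      have h4 : (∑ j, ∑ k, ‖dbar j (a k) z‖ ^ 2) = ∑ j, ∑ k, ‖dbar k (a j) z‖ ^ 2 :=
        Finset.sum_comm
      simp only [h2, Finset.sum_sub_distrib, Finset.sum_add_distrib, h4, ← Finset.mul_sum]
      ring
    have h5 : 0 ≤ ∑ j, ∑ k, ‖dbar k (a j) z‖ ^ 2 :=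
      Finset.sum_nonneg fun j _ => Finset.sum_nonneg fun k _ => sq_nonneg _
    have h6 := Real.exp_pos (-Φ z)
    rw [h3]
    nlinarith [mul_nonneg h5 h6.le]
  have e5 : (((∫ z, ‖∑ j, (dz j (a j) z - dz j (cx Φ) z * a j z)‖ ^ 2 * Real.exp (-Φ z) : ℝ) : ℂ))
      = (∫ z, ∑ j, ∑ k, W Φ z * (dbar k (a j) z * (starRingEnd ℂ) (dbar j (a k) z))) +
        ((∫ z, Lv Φ z (fun j => a j z) * Real.exp (-Φ z) : ℝ) : ℂ) := by
    rw [e1, e3, e4, e2]
  have e6 := congrArg Complex.re e5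
  rw [Complex.add_re, Complex.ofReal_re, Complex.ofReal_re] at e6
  have e7 : (∫ z, ∑ j, ∑ k, W Φ z * (dbar k (a j) z * (starRingEnd ℂ) (dbar j (a k) z))).re =
      ∫ z, (∑ j, ∑ k, W Φ z * (dbar k (a j) z * (starRingEnd ℂ) (dbar j (a k) z))).re :=
    (integral_re hI).symm
  -- integrability of the last integrand
  have hI2 : Integrable (fun z => (∑ j, ∑ k, ‖dbar k (a j) z - dbar j (a k) z‖ ^ 2) *
      Real.exp (-Φ z)) := by
    have h1 : Integrable (fun z => (∑ j, ∑ k, W Φ z * ((dbar k (a j) z - dbar j (a k) z) *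
        (starRingEnd ℂ) (dbar k (a j) z - dbar j (a k) z))).re) := by
      have h0 : Integrable (fun z => ∑ j, ∑ k, W Φ z * ((dbar k (a j) z - dbar j (a k) z) *
        (starRingEnd ℂ) (dbar k (a j) z - dbar j (a k) z))) :=
        integrable_finsetSum _ fun j _ => integrable_finsetSum _ fun k _ =>
          (test_IP hD hΦ (((ha j).dbar k).sub' ((ha k).dbar j))
            (((ha j).dbar k).sub' ((ha k).dbar j))).integrable
      exact h0.re
    refine h1.congr (Filter.Eventually.of_forall fun z => ?_)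
    show (∑ j, ∑ k, W Φ z * ((dbar k (a j) z - dbar j (a k) z) *
        (starRingEnd ℂ) (dbar k (a j) z - dbar j (a k) z))).re =
      (∑ j, ∑ k, ‖dbar k (a j) z - dbar j (a k) z‖ ^ 2) * Real.exp (-Φ z)
    rw [Complex.re_sum, Finset.sum_mul]
    refine Finset.sum_congr rfl fun j _ => ?_
    rw [Complex.re_sum, Finset.sum_mul]
    refine Finset.sum_congr rfl fun k _ => ?_
    unfold W
    rw [Complex.mul_conj, Complex.re_ofReal_mul, Complex.ofReal_re, Complex.normSq_eq_norm_sq]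
    ring
  have e8 : -((1 / 2) * ∫ z, (∑ j, ∑ k, ‖dbar k (a j) z - dbar j (a k) z‖ ^ 2) *
      Real.exp (-Φ z)) ≤
      ∫ z, (∑ j, ∑ k, W Φ z * (dbar k (a j) z * (starRingEnd ℂ) (dbar j (a k) z))).re := by
    rw [← integral_const_mul, ← integral_neg]
    exact integral_mono (hI2.const_mul _).neg hI.re hpt
  rw [e7] at e6
  linarith

end Pool.Agent.DK.H59
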